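import Pool.Agent.R819.TRing

/-!
# A compact Hausdorff space which is not perfectly normal, with `T'(X) = T''(X)`

The space is `βω`, here the space of ultrafilters on `ℕ`. The set `ω` is a dense cozero set of
isolated points, so every real function on `βω` lies in `T''(βω)`. If `p` is a free ultrafilter
and `h (p) = 0`, then there is a sequence of distinct `k n` with `h (k n) → 0`, and `h` vanishes
at all free ultrafilters containing the set of all `k (2n)` and at those containing the set of all
`k (2n+1)`. So `{p}` is not a zero set.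
-/

set_option autoImplicit false

open Set Topology Filter

namespace Pool.Agent.Results.MP_14365a_gt.StoneCech

open Pool.Agent.R819.TRing

/-- `X` is perfectly normal: every closed set is a zero set -/
def PerfNormal (X : Type*) [TopologicalSpace X] : Prop :=
  ∀ C : Set X, IsClosed C → ∃ h : C(X, ℝ), C = {x | h x = 0}

/-- the function `1/(n+1)` on `βω`, which vanishes exactly at the free ultrafilters -/
theorem exists_h : ∃ h : C(Ultrafilter ℕ, ℝ), ∀ x, h x ≠ 0 ↔ ∃ n : ℕ, x = pure n := by
  let φ : ℕ → Icc (0 : ℝ) 1 := fun n => ⟨1 / ((n : ℝ) + 1), by positivity, by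
    rw [div_le_one (by positivity)]
    linarith [(Nat.cast_nonneg n : (0 : ℝ) ≤ n)]⟩
  have hc : Continuous (Ultrafilter.extend φ) := continuous_ultrafilter_extend φ
  let e : Ultrafilter ℕ → Icc (0 : ℝ) 1 := Ultrafilter.extend φ
  have he : Continuous fun x => (e x : ℝ) := continuous_subtype_val.comp hc
  refine ⟨⟨fun x => (e x : ℝ), he⟩, fun x => ?_⟩
  change (e x : ℝ) ≠ 0 ↔ _
  have hp : ∀ n : ℕ, (e (pure n) : ℝ) = 1 / ((n : ℝ) + 1) := by
    intro n
    have := congrFun (ultrafilter_extend_extends φ) n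
    rw [Function.comp_apply] at this
    change ((Ultrafilter.extend φ (pure n) : Icc (0 : ℝ) 1) : ℝ) = _
    rw [this]
  constructor
  · intro hx
    by_contra hne
    push Not at hne
    -- the limit along a free ultrafilter is zero
    have h1 : (x : Filter ℕ) ≤ cofinite :=
      (Ultrafilter.le_cofinite_or_eq_pure x).resolve_right (fun ⟨n, hn⟩ => hne n hn)
    have h2 : Tendsto (fun n : ℕ => (e (pure n) : ℝ)) x (𝓝 (e x : ℝ)) :=
      (he.tendsto x).comp (Ultrafilter.tendsto_pure_self x)
    have h3 : Tendsto (fun n : ℕ => (e (pure n) : ℝ)) x (𝓝 0) := by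
      simp_rw [hp]
      refine tendsto_one_div_add_atTop_nhds_zero_nat.mono_left ?_
      rw [← Nat.cofinite_eq_atTop]
      exact h1
    exact hx (tendsto_nhds_unique h2 h3)
  · rintro ⟨n, rfl⟩
    rw [hp]
    positivity

theorem dense_pure : Dense {x : Ultrafilter ℕ | ∃ n : ℕ, x = pure n} := by
  have h := denseRange_pure (α := ℕ)
  have h1 : {x : Ultrafilter ℕ | ∃ n : ℕ, x = pure n} = range pure := by
    ext x
    simp [eq_comm]
  rw [h1]
  exact h

theorem isOpen_pure (n : ℕ) : IsOpen ({pure n} : Set (Ultrafilter ℕ)) := by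
  have h1 : ({pure n} : Set (Ultrafilter ℕ)) = {u | {n} ∈ u} := by
    ext u
    rw [mem_singleton_iff]
    constructor
    · rintro rfl
      exact rfl
    · intro h
      exact (Ultrafilter.eq_pure_of_finite_mem (finite_singleton n) h).elim (fun m hm => by
        rw [hm.2, mem_singleton_iff.1 hm.1])
  rw [h1]
  exact ultrafilter_isOpen_basic _

theorem all_mem (f : Ultrafilter ℕ → ℝ) : f ∈ Tpp (Ultrafilter ℕ) := by
  obtain ⟨h, hh⟩ := exists_h
  have h1 : {x | h x ≠ 0} = {x : Ultrafilter ℕ | ∃ n : ℕ, x = pure n} := by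
    ext x
    exact hh x
  refine ⟨h, ?_, ?_⟩
  · rw [h1]
    exact dense_pure
  · rw [h1]
    rintro x ⟨n, rfl⟩
    refine ContinuousAt.continuousWithinAt ?_
    have h2 : 𝓝 (pure n : Ultrafilter ℕ) = pure (pure n) := by
      exact isOpen_singleton_iff_nhds_eq_pure _ |>.1 (isOpen_pure n)
    rw [ContinuousAt, h2]
    exact tendsto_pure_nhds f _

theorem not_perf : ¬ PerfNormal (Ultrafilter ℕ) := by
  intro hperf
  let p : Ultrafilter ℕ := hyperfilter ℕ
  obtain ⟨h, hh⟩ := hperf {p} isClosed_singleton
  have hp : h p = 0 := by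
    have : p ∈ ({p} : Set (Ultrafilter ℕ)) := rfl
    rw [hh] at this
    exact this
  have hzero : ∀ u : Ultrafilter ℕ, h u = 0 → u = p := by
    intro u hu
    have : u ∈ ({p} : Set (Ultrafilter ℕ)) := by
      rw [hh]
      exact hu
    exact this
  have hlim : ∀ u : Ultrafilter ℕ, Tendsto (fun n : ℕ => h (pure n)) u (𝓝 (h u)) := fun u =>
    (h.continuous.tendsto u).comp (Ultrafilter.tendsto_pure_self u)
  have h1 : ∀ m : ℕ, ∃ᶠ k in atTop, |h (pure k)| < 1 / ((m : ℝ) + 1) := by
    intro m
    have h2 : ∀ᶠ k in (p : Filter ℕ), |h (pure k)| < 1 / ((m : ℝ) + 1) := by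
      have h3 := hlim p
      rw [hp] at h3
      have h4 := (Metric.tendsto_nhds.1 h3) (1 / ((m : ℝ) + 1)) (by positivity)
      simpa [Real.dist_eq] using h4
    have h5 : (p : Filter ℕ) ≤ atTop := by
      rw [← Nat.cofinite_eq_atTop]
      exact hyperfilter_le_cofinite
    exact h2.frequently.filter_mono h5
  obtain ⟨φ, hφ, hφ2⟩ := extraction_forall_of_frequently h1
  have htend : Tendsto (fun n => h (pure (φ n))) atTop (𝓝 0) := by
    rw [tendsto_zero_iff_abs_tendsto_zero]
    refine squeeze_zero (fun _ => abs_nonneg _) (fun n => (hφ2 n).le)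
      tendsto_one_div_add_atTop_nhds_zero_nat
  have key : ∀ ψ : ℕ → ℕ, StrictMono ψ → (p.map (φ ∘ ψ)) = p := by
    intro ψ hψ
    refine hzero _ (tendsto_nhds_unique (hlim _) ?_)
    rw [Ultrafilter.coe_map, tendsto_map'_iff]
    have h6 : Tendsto (fun n => h (pure (φ (ψ n)))) atTop (𝓝 0) := htend.comp hψ.tendsto_atTop
    refine h6.mono_left ?_
    rw [← Nat.cofinite_eq_atTop]
    exact hyperfilter_le_cofinite
  have k1 := key (fun n => 2 * n) (strictMono_nat_of_lt_succ fun n => by omega)
  have k2 := key (fun n => 2 * n + 1) (strictMono_nat_of_lt_succ fun n => by omega)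
  have m1 : range (φ ∘ fun n => 2 * n) ∈ p := by
    rw [← k1]
    exact range_mem_map
  have m2 : range (φ ∘ fun n => 2 * n + 1) ∈ p := by
    rw [← k2]
    exact range_mem_map
  obtain ⟨y, ⟨a, ha⟩, ⟨b, hb⟩⟩ := Ultrafilter.nonempty_of_mem (inter_mem m1 m2)
  have h7 : 2 * a = 2 * b + 1 := hφ.injective (ha.trans hb.symm)
  omega

/-- **There is a compact Hausdorff space `X` which is not perfectly normal and satisfies
`T'(X) = T''(X)`** (both rings consist of all real functions on `X`). -/
theorem result : ∃ (X : Type) (_ : TopologicalSpace X), CompactSpace X ∧ T2Space X ∧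
    ¬ PerfNormal X ∧ Tp X = Tpp X := by
  refine ⟨Ultrafilter ℕ, inferInstance, inferInstance, inferInstance, not_perf, ?_⟩
  refine le_antisymm (fun f _ => all_mem f) ?_
  rintro f ⟨h, hd, hf⟩
  exact ⟨_, isOpen_ne_fun h.continuous continuous_const, hd, hf⟩

end Pool.Agent.Results.MP_14365a_gt.StoneCech
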